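import Pool.Agent.W5h11.TZ.Main
import Pool.Agent.W5h11.TZ.NC
import Pool.Agent.W5h11.TZ.Diff
import Pool.Agent.W5h11.TZ.Low
import Pool.Agent.W5h11.TZ.LowT
import Pool.Agent.W5h11.TZ.Sad
import Pool.Agent.W5h11.TZ.Rim
import Pool.Agent.W5h11.TZ.Ins
import Pool.Agent.W5h11.TZ.Few
import Pool.Agent.W5h11.TZ.FewC
import Pool.Agent.W5h11.TZ.Parts
import Pool.Agent.W5h11.TZ.FExp2
import Pool.Agent.W5h11.TZ.AJ
import Pool.Agent.W5h11.TZ.AJ2
import Pool.Agent.W5h11.TZ.HSum
import Pool.Agent.W5h11.TZ.CntM
import Pool.Agent.W5h11.TZ.LP
import Pool.Agent.W5h11.TZ.Many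

/-!
Asymptotically almost every zero of the character table of `S_n` which the Murnaghan-Nakayama rule
detects by the removal of arbitrarily many rim hooks of lengths `≥ 16 √n log log n` and of at most
`√n / (2 (log n) ^ 2)` smaller ones, in any order, is of type I. (The largest part of a typical
partition of `n` is of order `√n log n`; one step detects the zeros of type II.)

Sketch of the proof. Only few partitions have more than `√n / (2 (log n) ^ 2)` parts
`≥ 16 √n log log n`, so that one may consider lists of at most `√n / (log n) ^ 2` parts. Let `(f, u)`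
be a pair, not of type II, with a dead list of parts of `u`, and take such a list of minimal length
`j ≥ 2`. If `f` had more than `4 (j - 1)` removable rim hooks of length `t`, for a member `t` of the
list, then a removal of such a hook could be inserted in a sequence of removals for the rest of the
list (on the abacus the move can be chosen so that it does not interfere with the other moves),
against the minimality. So `f` has at most `4 j` removable rim hooks of each length in the list. By
adding rim hooks one sees that the number of these `f` is at most `D B ^ j exp (- c q t) p(n)` with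
`q t = t exp (- x t)` for `t ≥ √n` and `q t = √n` for `t < √n`; and `u` contains the list with
probability at most `C exp (- x sum)`. The lists are counted by their multiplicities, with the
generating function `∏ 1 / (1 - a t z)`, `a t = exp (- x t - c q t / j)`. The lists of length `j`
contribute `O((B' / log n) ^ j)` for `j ≤ n ^ (1 / 4)` and `O(4 ^ (- j))` for the larger `j`, and
`z_I` is of order `1 / log n`.

The files are in `Pool.Agent.W5h11.TZ`; the partitions, the cores and the densities are those of
`Pool.Agent.H581R3.Core` and `Pool.Agent.R721.PN`.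
-/

set_option autoImplicit false

namespace Pool.Agent.Results.MP_1882ea_al.ManyParts

open Filter Topology
open Pool.Agent.H581R3.Core Pool.Agent.R721.PN Pool.Agent.W5h11.TZ

/-- For `1 ≤ k ≤ √n / (2 (log n) ^ 2)` and `T ≥ 16 √n log log n` the zeros of type I and of type II are
among the pairs which are dead for some list of parts, at most `k` of which are smaller than `T`, and
the densities of these pairs and of the zeros of type I differ only by a factor `1 + O(1 / log n)`,
uniformly in `k` and `T`; in particular their quotient tends to `1`. -/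
theorem result :
    (∀ n k T : ℕ, 1 ≤ n → 1 ≤ k →
      typeIZeros n ⊆ typeIIZeros n ∧ typeIIZeros n ⊆ manyZeros k T n) ∧
    (∃ c C : ℝ, 0 < c ∧ ∀ᶠ n : ℕ in atTop, ∀ k T : ℕ, 1 ≤ k →
      (k : ℝ) ≤ √(n : ℝ) / (2 * Real.log n ^ 2) →
      16 * (√(n : ℝ) * Real.log (Real.log n)) ≤ T →
      c / Real.log n ≤ zI n ∧ zI n ≤ zMany k T n ∧
        zMany k T n ≤ (1 + C / Real.log n) * zI n) ∧
    ∀ k T : ℕ → ℕ, (∀ᶠ n : ℕ in atTop, 1 ≤ k n ∧ (k n : ℝ) ≤ √(n : ℝ) / (2 * Real.log n ^ 2) ∧
        16 * (√(n : ℝ) * Real.log (Real.log n)) ≤ T n) →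
      Tendsto (fun n => zI n / zMany (k n) (T n) n) atTop (𝓝 1) ∧
      (Tendsto (fun n => zI n / zTable n) atTop (𝓝 1) ↔
        Tendsto (fun n => zMany (k n) (T n) n / zTable n) atTop (𝓝 1)) := by
  obtain ⟨xs, C, n0, h⟩ := sad
  have hd := poly2_of h rh ins (fexp2 few fewc xs C n0 h) (aj xs C n0 h) (aj2 xs C n0 h) hsum
    (cntm parts)
  obtain ⟨c, C', hc, hr⟩ := many_of h rh (zi_of nc low) (zd_of diff lowt)
    (lp hsum (cntm parts)) hd
  refine ⟨fun n k T hn hk => ⟨typeI_subset n hn,
    (typeII_sub_dead rh k n hk).trans (dead_sub_many k T n)⟩, ⟨c, C', hc, hr⟩,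
    fun k T hkT => question_gen (C := C') _ hc ?_⟩
  filter_upwards [hr, hkT] with n h1 h2
  exact h1 (k n) (T n) h2.1 h2.2.1 h2.2.2

end Pool.Agent.Results.MP_1882ea_al.ManyParts
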