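import Pool.Agent.W5h11.TZ.Main
import Pool.Agent.W5h11.TZ.NC
import Pool.Agent.W5h11.TZ.Diff
import Pool.Agent.W5h11.TZ.Low
import Pool.Agent.W5h11.TZ.LowT
import Pool.Agent.W5h11.TZ.Sad
import Pool.Agent.W5h11.TZ.Mom
import Pool.Agent.W5h11.TZ.Parts
import Pool.Agent.W5h11.TZ.Z1
import Pool.Agent.W5h11.TZ.Z2
import Pool.Agent.W5h11.TZ.Z3
import Pool.Agent.W5h11.TZ.Z4
import Pool.Agent.W5h11.TZ.Z5
import Pool.Agent.W5h11.TZ.Z6
import Pool.Agent.W5h11.TZ.Z7

/-!
The density of the zeros of type II of the character table of `S_n` which are not of type I is of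
exact order `1 / (log n) ^ 2`.

Sketch of the proof of the lower bound. Let `u(t) = t exp (- x t)`, `x` the saddle point, and let
`s < t` be such that `u(s)` is between `1 / 4` and `1 / 2` and `u(t)` between `1 / 40` and `1 / 20`. A
positive proportion of all partitions of `n` are `s`-cores but not `t`-cores: to most of the `s`-cores
of size `n - t` one can add a rim hook of length `t` in about `s` ways such that the result is an
`s`-core (deterministically in all but `t - s + 2 n / (t - s)` of the at least `s` cases), and the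
second moment of the number of removable rim hooks of length `t` is small. The partitions with the
largest part `t` and a part `s` have proportion about `exp (- x (s + t))`; the sum over `s` and `t` is of
order `1 / (log n) ^ 2`, and the overlaps are of order `1 / (log n) ^ 3`.
-/

set_option autoImplicit false

namespace Pool.Agent.Results.MP_1882ea_al.SharpRate

open Filter Topology
open Pool.Agent.H581R3.Core Pool.Agent.R721.PN Pool.Agent.W5h11.TZ

/-- `z_II - z_I` is of exact order `1 / (log n) ^ 2`, and `1 - z_I / z_II` of exact order `1 / log n`. -/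
theorem result :
    (∃ c C : ℝ, 0 < c ∧ ∀ᶠ n : ℕ in atTop,
      c / Real.log n ^ 2 ≤ zII n - zI n ∧ zII n - zI n ≤ C / Real.log n ^ 2) ∧
    ∃ c C : ℝ, 0 < c ∧ ∀ᶠ n : ℕ in atTop,
      c / Real.log n ≤ 1 - zI n / zII n ∧ 1 - zI n / zII n ≤ C / Real.log n := by
  obtain ⟨xs, C, n0, h⟩ := sad
  obtain ⟨c₁, hc₁, h1⟩ := z7 (z3 parts) z4 h (z5 z1 mom xs C n0 h) (z6 (z2 parts) xs C n0 h)
  obtain ⟨C₂, n₂, h2⟩ := zd_of diff lowt
  obtain ⟨c₃, hc₃, n₃, h3⟩ := zi_of nc low
  obtain ⟨K, hK⟩ := zII_bound
  refine ⟨⟨c₁, C₂, hc₁, ?_⟩, c₁ / max K 1, max C₂ 0 / c₃, by positivity, ?_⟩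
  · filter_upwards [h1, eventually_ge_atTop n₂] with n a1 a2
    exact ⟨a1, h2 n a2⟩
  · filter_upwards [h1, eventually_ge_atTop 2, eventually_ge_atTop n₂, eventually_ge_atTop n₃,
      log_tendsto.eventually_ge_atTop 1] with n a1 a4 a2 a3 a5
    have hL : 0 < Real.log n := by linarith
    have b1 := h2 n a2
    have b2 := h3 n a3
    have b3 := zI_le_zII n (by omega)
    have b4 : zII n ≤ max K 1 / Real.log n :=
      (hK n a4).trans (by gcongr; exact le_max_left _ _)
    have hK1 : 0 < max K 1 := lt_max_of_lt_right one_pos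
    have hzI : 0 < zI n := lt_of_lt_of_le (by positivity) b2
    have hzII : 0 < zII n := lt_of_lt_of_le hzI b3
    have e1 : 1 - zI n / zII n = (zII n - zI n) / zII n := by field_simp
    rw [e1]
    refine ⟨?_, ?_⟩
    · rw [le_div_iff₀ hzII]
      calc c₁ / max K 1 / Real.log n * zII n ≤
            c₁ / max K 1 / Real.log n * (max K 1 / Real.log n) := by gcongr
        _ = c₁ / Real.log n ^ 2 := by field_simp
        _ ≤ _ := a1
    · rw [div_le_iff₀ hzII]
      calc zII n - zI n ≤ C₂ / Real.log n ^ 2 := b1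
        _ ≤ max C₂ 0 / Real.log n ^ 2 := by gcongr; exact le_max_left _ _
        _ = max C₂ 0 / c₃ / Real.log n * (c₃ / Real.log n) := by field_simp
        _ ≤ max C₂ 0 / c₃ / Real.log n * zII n := by
            gcongr
            exact b2.trans b3

end Pool.Agent.Results.MP_1882ea_al.SharpRate
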