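import Pool.Agent.W5h11.TZ.Low
import Pool.Agent.W5h11.TZ.Sad
import Pool.Agent.W5h11.TZ.Mom
import Pool.Agent.W5h11.TZ.Poi
import Pool.Agent.W5h11.TZ.MSum
import Pool.Agent.W5h11.TZ.Left
import Pool.Agent.W5h11.TZ.Sharp

/-!
The density `z_I(S_n)` of the zeros of type I in the character table of `S_n` is asymptotically
`2 / log n`. Hence the question (is `z(S_n)` asymptotically equal to `z_I(S_n)`?) has the answer yes
if and only if the density `z(S_n)` of all zeros is asymptotically `2 / log n`.

Sketch of the proof. Let `p` be the number of partitions and `c_t` the number of the `t`-cores.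
* Local regularity (saddle point method): there is `x = x_n` of order `1 / √n` with
  `p(n - t) = exp (- x t) p(n) (1 + O(t n ^ (- 3 / 4) log n))`.
* The number of the removable rim hooks of length `t` of a random partition of `n` has factorial
  moments `binom(t, i) p(n - i t) / p(n)`, up to a factor near `1`; by the Bonferroni inequalities
  `c_t(n) / p(n) → exp (- t exp (- x t))` for `t ≥ √n` with `t exp (- x t)` bounded.
* `z_I` is asymptotically the sum over `t` of `c_t(n) p(n - t) / p(n) ^ 2`, a sum which telescopes.

The files are in `Pool.Agent.W5h11.TZ`; the partitions, the cores and the densities are those of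
`Pool.Agent.H581R3.Core` and `Pool.Agent.R721.PN`.
-/

set_option autoImplicit false

namespace Pool.Agent.Results.MP_1882ea_al.TypeOneDensity

open Filter Topology
open Pool.Agent.H581R3.Core Pool.Agent.R721.PN Pool.Agent.W5h11.TZ

/-- `log n * z_I(S_n) → 2`, and `z(S_n)` is asymptotically equal to `z_I(S_n)` if and only if
`log n * z(S_n) → 2`. -/
theorem result :
    Tendsto (fun n : ℕ => Real.log n * zI n) atTop (𝓝 2) ∧
    (Tendsto (fun n => zI n / zTable n) atTop (𝓝 1) ↔
      Tendsto (fun n : ℕ => Real.log n * zTable n) atTop (𝓝 2)) := by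
  obtain ⟨xs, C, n0, h⟩ := sad
  have h1 := (sharp_of h (poi mom xs C n0 h) msum (left xs C n0 h) low).1
  refine ⟨h1, fun ht => ?_, fun ht => ?_⟩
  · have h7 := h1.mul (ht.inv₀ one_ne_zero)
    rw [inv_one, mul_one] at h7
    refine h7.congr' ?_
    filter_upwards [ht.eventually_ne one_ne_zero] with n hn
    have ha : zI n ≠ 0 := fun h => hn (by rw [h, zero_div])
    have hb : zTable n ≠ 0 := fun h => hn (by rw [h, div_zero])
    field_simp
  · have h7 := h1.div ht two_ne_zero
    rw [div_self two_ne_zero] at h7
    refine h7.congr' ?_
    filter_upwards [log_tendsto.eventually_ge_atTop 1] with n hn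
    have hL : Real.log n ≠ 0 := by linarith
    rw [Pi.div_apply, mul_div_mul_left _ _ hL]

end Pool.Agent.Results.MP_1882ea_al.TypeOneDensity
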